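import Mathlib

open MeasureTheory Set Metric Filter Topology
open scoped ENNReal NNReal BoundedContinuousFunction

namespace Pool.Agent.Results.MP_8b9c06_gt.InfiniteCorners

abbrev Plane := EuclideanSpace ℝ (Fin 2)

/-! ### Definitions of the problem -/

/-- Sum of the distances to the foci. -/
noncomputable def focalSum {n : ℕ} (p : Fin n → Plane) (x : Plane) : ℝ := ∑ i, ‖x - p i‖

/-- `C` is a limit, in Hausdorff distance, of multifocal ellipses all of whose foci lie in `B`. -/
def ApproximableWithFociIn (B : Set Plane) (C : Set Plane) : Prop :=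
  ∀ ε : ℝ, 0 < ε → ∃ (n : ℕ) (p : Fin n → Plane) (c : ℝ), 0 < n ∧ (∀ i, p i ∈ B) ∧
    (∃ z, focalSum p z < c) ∧
    hausdorffEDist {x | focalSum p x = c} C < ENNReal.ofReal ε

/-- The potential `U_E + V_Γ + ∑ |x - p_j|`; arc length on `Γ` is one-dimensional Hausdorff
measure. -/
noncomputable def potential (E Γ : Set Plane) {m : ℕ} (p : Fin m → Plane) (x : Plane) : ℝ :=
  (∫ y in E, ‖x - y‖) + (∫ y in Γ, ‖x - y‖ ∂(Measure.hausdorffMeasure 1)) + ∑ j, ‖x - p j‖

/-- A rectifiable curve: a Lipschitz image of a compact interval (possibly empty). -/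
def IsRectifiableCurve (Γ : Set Plane) : Prop :=
  ∃ (a b : ℝ) (K : ℝ≥0) (γ : ℝ → Plane), LipschitzOnWith K γ (Icc a b) ∧ Γ = γ '' Icc a b

/-- Generalized-ellipse form. -/
def IsGeneralizedEllipseForm (C : Set Plane) : Prop :=
  ∃ (E Γ : Set Plane) (m : ℕ) (p : Fin m → Plane) (c : ℝ),
    IsOpen E ∧ Bornology.IsBounded E ∧ IsRectifiableCurve Γ ∧
    (∃ z, potential E Γ p z < c) ∧ C = {x | potential E Γ p x = c}

/-! ### The weights, directions and foci -/

/-- The weights `2^(-(k+1))`. -/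
noncomputable def wt (k : ℕ) : ℝ := (1 / 2) ^ (k + 1)

lemma wt_pos (k : ℕ) : 0 < wt k := by unfold wt; positivity

lemma hasSum_wt : HasSum wt 1 := by
  have h := hasSum_geometric_two
  have h2 := h.mul_left (1 / 2)
  have : wt = fun k : ℕ => (1 / 2 : ℝ) * (1 / 2) ^ k := by
    funext k; unfold wt; ring
  rw [this]
  rw [show (1 / 2 : ℝ) * 2 = 1 by norm_num] at h2
  exact h2

lemma summable_wt : Summable wt := hasSum_wt.summable

lemma summable_wt_mul {f : ℕ → ℝ} {B : ℝ} (hf : ∀ k, |f k| ≤ B) : Summable fun k => wt k * f k := by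
  refine Summable.of_norm_bounded (g := fun k => wt k * B) (summable_wt.mul_right B) ?_
  intro k
  rw [Real.norm_eq_abs, abs_mul, abs_of_pos (wt_pos k)]
  exact mul_le_mul_of_nonneg_left (hf k) (wt_pos k).le

lemma tsum_wt_mul_le {f : ℕ → ℝ} {B : ℝ} (hf : ∀ k, |f k| ≤ B) : |∑' k, wt k * f k| ≤ B := by
  have h1 : Summable fun k => wt k * f k := summable_wt_mul hf
  have h3 : ∀ k, ‖wt k * f k‖ ≤ wt k * B := by
    intro k
    rw [Real.norm_eq_abs, abs_mul, abs_of_pos (wt_pos k)]
    exact mul_le_mul_of_nonneg_left (hf k) (wt_pos k).le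
  have h2 : ‖∑' k, wt k * f k‖ ≤ ∑' k, wt k * B :=
    tsum_of_norm_bounded (summable_wt.mul_right B).hasSum h3
  rw [tsum_mul_right, hasSum_wt.tsum_eq, one_mul] at h2
  exact h2

/-- The unit direction with angle `1/(k+1)`. -/
noncomputable def dir (k : ℕ) : Plane := !₂[Real.cos (1 / (k + 1)), Real.sin (1 / (k + 1))]

lemma norm_dir (k : ℕ) : ‖dir k‖ = 1 := by
  unfold dir
  rw [EuclideanSpace.norm_eq]
  simp

/-- the operator whose fixed point gives the foci -/
noncomputable def opFun (q : ℕ → Plane) (k : ℕ) : Plane :=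
  ((8 - ∑' j, wt j * ‖q k - q j‖) / 8) • dir k

lemma opFun_dist {q q' : ℕ → Plane} {B D : ℝ} (hq : ∀ k, ‖q k‖ ≤ B) (hq' : ∀ k, ‖q' k‖ ≤ B)
    (hD : ∀ k, ‖q k - q' k‖ ≤ D) (k : ℕ) : ‖opFun q k - opFun q' k‖ ≤ D / 4 := by
  have hb : ∀ (p : ℕ → Plane), (∀ k, ‖p k‖ ≤ B) → ∀ j, |‖p k - p j‖| ≤ 2 * B := by
    intro p hp j
    rw [abs_of_nonneg (norm_nonneg _)]
    calc ‖p k - p j‖ ≤ ‖p k‖ + ‖p j‖ := norm_sub_le _ _
      _ ≤ 2 * B := by linarith [hp k, hp j]
  have e : opFun q k - opFun q' k =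
      ((∑' j, wt j * (‖q' k - q' j‖ - ‖q k - q j‖)) / 8) • dir k := by
    unfold opFun
    rw [← sub_smul]
    congr 1
    have : ∑' j, wt j * (‖q' k - q' j‖ - ‖q k - q j‖)
        = ∑' j, wt j * ‖q' k - q' j‖ - ∑' j, wt j * ‖q k - q j‖ := by
      rw [← (summable_wt_mul (hb q' hq')).tsum_sub (summable_wt_mul (hb q hq))]
      congr 1; funext j; ring
    rw [this]; ring
  rw [e, norm_smul, norm_dir, mul_one, Real.norm_eq_abs, abs_div]
  have : |∑' j, wt j * (‖q' k - q' j‖ - ‖q k - q j‖)| ≤ 2 * D := by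
    apply tsum_wt_mul_le
    intro j
    have h1 : |‖q' k - q' j‖ - ‖q k - q j‖| ≤ ‖(q' k - q' j) - (q k - q j)‖ :=
      abs_norm_sub_norm_le _ _
    have h2 : (q' k - q' j) - (q k - q j) = -(q k - q' k) + (q j - q' j) := by abel
    rw [h2] at h1
    calc _ ≤ _ := h1
      _ ≤ ‖-(q k - q' k)‖ + ‖q j - q' j‖ := norm_add_le _ _
      _ ≤ 2 * D := by rw [norm_neg]; linarith [hD k, hD j]
  have h8 : |(8 : ℝ)| = 8 := by norm_num
  rw [h8]
  linarith

lemma opFun_bound {q : ℕ → Plane} {B : ℝ} (hq : ∀ k, ‖q k‖ ≤ B) (k : ℕ) :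
    ‖opFun q k‖ ≤ 1 + B / 4 := by
  have h0 : ‖opFun (fun _ => 0) k‖ = 1 := by
    unfold opFun
    simp [norm_dir]
  have hB : 0 ≤ B := (norm_nonneg _).trans (hq 0)
  have h1 := opFun_dist (q := q) (q' := fun _ => 0) (B := B) (D := B) hq (by intro k; simpa using hB)
    (by intro k; simpa using hq k) k
  calc ‖opFun q k‖ = ‖(opFun q k - opFun (fun _ => 0) k) + opFun (fun _ => 0) k‖ := by
        rw [sub_add_cancel]
    _ ≤ _ := norm_add_le _ _
    _ ≤ B / 4 + 1 := by linarith
    _ = _ := by ring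

noncomputable def op (q : ℕ →ᵇ Plane) : ℕ →ᵇ Plane :=
  BoundedContinuousFunction.ofNormedAddCommGroupDiscrete (opFun q) (1 + ‖q‖ / 4)
    (fun k => opFun_bound (fun j => q.norm_coe_le_norm j) k)

lemma exists_foci : ∃ q : ℕ → Plane, (∀ k, ‖q k‖ ≤ 4 / 3) ∧ ∀ k, q k = opFun q k := by
  have hc : ContractingWith (1 / 4) op := by
    constructor
    · norm_num
    · apply LipschitzWith.of_dist_le_mul
      intro q q'
      rw [BoundedContinuousFunction.dist_le (by positivity)]
      intro k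
      rw [dist_eq_norm]
      have := opFun_dist (q := q) (q' := q') (B := max ‖q‖ ‖q'‖) (D := dist q q')
        (fun j => (q.norm_coe_le_norm j).trans (le_max_left _ _))
        (fun j => (q'.norm_coe_le_norm j).trans (le_max_right _ _))
        (fun j => by rw [← dist_eq_norm]; exact BoundedContinuousFunction.dist_coe_le_dist j) k
      calc ‖op q k - op q' k‖ = ‖opFun q k - opFun q' k‖ := rfl
        _ ≤ _ := this
        _ = _ := by push_cast; ring
  obtain ⟨q, hq⟩ : ∃ q, op q = q := ⟨hc.fixedPoint, hc.fixedPoint_isFixedPt⟩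
  have hq' : ∀ k, q k = opFun q k := fun k => by
    conv_lhs => rw [← hq]
    rfl
  refine ⟨q, ?_, hq'⟩
  have hle : ‖q‖ ≤ 1 + ‖q‖ / 4 := by
    rw [BoundedContinuousFunction.norm_le (by positivity)]
    intro k
    rw [hq' k]
    exact opFun_bound (fun j => q.norm_coe_le_norm j) k
  intro k
  have := q.norm_coe_le_norm k
  linarith


/-! ### The convex function -/

noncomputable def Fpart (q : ℕ → Plane) (s : Finset ℕ) (x : Plane) : ℝ :=
  8 * ‖x‖ + ∑ k ∈ s, wt k * ‖x - q k‖

noncomputable def Ffull (q : ℕ → Plane) (x : Plane) : ℝ :=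
  8 * ‖x‖ + ∑' k, wt k * ‖x - q k‖

variable {q : ℕ → Plane}

lemma bd_term (hq : ∀ k, ‖q k‖ ≤ 4 / 3) (x : Plane) (k : ℕ) : |‖x - q k‖| ≤ ‖x‖ + 4 / 3 := by
  rw [abs_of_nonneg (norm_nonneg _)]
  exact (norm_sub_le _ _).trans (by linarith [hq k])

lemma summable_F (hq : ∀ k, ‖q k‖ ≤ 4 / 3) (x : Plane) : Summable fun k => wt k * ‖x - q k‖ :=
  summable_wt_mul (bd_term hq x)

lemma F_at_focus (hq : ∀ k, ‖q k‖ ≤ 4 / 3) (hfix : ∀ k, q k = opFun q k) (k : ℕ) :
    Ffull q (q k) = 8 := by
  have h1 : |∑' j, wt j * ‖q k - q j‖| ≤ ‖q k‖ + 4 / 3 := tsum_wt_mul_le (bd_term hq (q k))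
  have h2 : (∑' j, wt j * ‖q k - q j‖) ≤ 8 / 3 := by
    have := (abs_le.mp h1).2
    linarith [hq k]
  have h3 : ‖q k‖ = (8 - ∑' j, wt j * ‖q k - q j‖) / 8 := by
    conv_lhs => rw [hfix k]
    unfold opFun
    rw [norm_smul, norm_dir, mul_one, Real.norm_eq_abs, abs_of_nonneg]
    linarith
  unfold Ffull
  rw [h3]
  ring

lemma focus_pos (hq : ∀ k, ‖q k‖ ≤ 4 / 3) (hfix : ∀ k, q k = opFun q k) (k : ℕ) :
    ∃ r : ℝ, 0 < r ∧ q k = r • dir k := by
  have h1 : |∑' j, wt j * ‖q k - q j‖| ≤ ‖q k‖ + 4 / 3 := tsum_wt_mul_le (bd_term hq (q k))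
  have h2 : (∑' j, wt j * ‖q k - q j‖) ≤ 8 / 3 := by
    have := (abs_le.mp h1).2
    linarith [hq k]
  exact ⟨(8 - ∑' j, wt j * ‖q k - q j‖) / 8, by linarith, hfix k⟩

lemma focus_injective (hq : ∀ k, ‖q k‖ ≤ 4 / 3) (hfix : ∀ k, q k = opFun q k) :
    Function.Injective q := by
  intro a b hab
  obtain ⟨r, hr, h1⟩ := focus_pos hq hfix a
  obtain ⟨s, hs, h2⟩ := focus_pos hq hfix b
  have hn : r = s := by
    have e1 : ‖q a‖ = r := by rw [h1, norm_smul, norm_dir, mul_one, Real.norm_eq_abs, abs_of_pos hr]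
    have e2 : ‖q b‖ = s := by rw [h2, norm_smul, norm_dir, mul_one, Real.norm_eq_abs, abs_of_pos hs]
    rw [← e1, ← e2, hab]
  have hd : dir a = dir b := by
    have : r • dir a = r • dir b := by rw [← h1, hab, h2, hn]
    exact smul_right_injective _ hr.ne' this
  have hc : Real.cos (1 / ((a : ℝ) + 1)) = Real.cos (1 / ((b : ℝ) + 1)) := by
    have := congrFun (congrArg (fun v : Plane => (v : Fin 2 → ℝ)) hd) 0
    simpa [dir] using this
  have ha : 1 / ((a : ℝ) + 1) ∈ Icc 0 Real.pi := by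
    constructor
    · positivity
    · have : 1 / ((a : ℝ) + 1) ≤ 1 := by
        rw [div_le_one (by positivity)]; linarith [(Nat.cast_nonneg a : (0 : ℝ) ≤ a)]
      linarith [Real.pi_gt_three]
  have hb : 1 / ((b : ℝ) + 1) ∈ Icc 0 Real.pi := by
    constructor
    · positivity
    · have : 1 / ((b : ℝ) + 1) ≤ 1 := by
        rw [div_le_one (by positivity)]; linarith [(Nat.cast_nonneg b : (0 : ℝ) ≤ b)]
      linarith [Real.pi_gt_three]
  have := Real.injOn_cos ha hb hc
  have h3 : (a : ℝ) + 1 = (b : ℝ) + 1 := by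
    have ha' : ((a : ℝ) + 1) ≠ 0 := by positivity
    have hb' : ((b : ℝ) + 1) ≠ 0 := by positivity
    field_simp at this
    linarith
  exact_mod_cast (add_right_cancel h3)

lemma Fpart_close (hq : ∀ k, ‖q k‖ ≤ 4 / 3) (n : ℕ) (x : Plane) (hx : ‖x‖ ≤ 2) :
    |Ffull q x - Fpart q (Finset.range n) x| ≤ 4 * (1 / 2) ^ n := by
  have h := (summable_F hq x).sum_add_tsum_nat_add n
  have e : Ffull q x - Fpart q (Finset.range n) x = ∑' k, wt (k + n) * ‖x - q (k + n)‖ := by
    unfold Ffull Fpart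
    rw [← h]; ring
  rw [e]
  have e2 : ∀ k, wt (k + n) * ‖x - q (k + n)‖ = wt k * ((1 / 2) ^ n * ‖x - q (k + n)‖) := by
    intro k; unfold wt; rw [show k + n + 1 = (k + 1) + n by ring, pow_add]; ring
  simp_rw [e2]
  apply tsum_wt_mul_le
  intro k
  rw [abs_mul, abs_of_pos (by positivity : (0 : ℝ) < (1 / 2) ^ n)]
  have := bd_term hq x (k + n)
  have h3 : |‖x - q (k + n)‖| ≤ 4 := this.trans (by linarith)
  nlinarith [(by positivity : (0 : ℝ) < (1 / 2) ^ n)]

lemma convex_term (a : Plane) : ConvexOn ℝ univ fun x : Plane => ‖x - a‖ := by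
  refine ⟨convex_univ, ?_⟩
  intro x _ y _ s t hs ht hst
  have e : s • x + t • y - a = s • (x - a) + t • (y - a) := by
    rw [smul_sub, smul_sub]
    have : s • a + t • a = a := by rw [← add_smul, hst, one_smul]
    calc s • x + t • y - a = s • x + t • y - (s • a + t • a) := by rw [this]
      _ = _ := by abel
  change ‖s • x + t • y - a‖ ≤ s • ‖x - a‖ + t • ‖y - a‖
  rw [e]
  calc _ ≤ ‖s • (x - a)‖ + ‖t • (y - a)‖ := norm_add_le _ _
    _ = _ := by rw [norm_smul, norm_smul, Real.norm_of_nonneg hs, Real.norm_of_nonneg ht]; rfl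

lemma convex_Fpart (s : Finset ℕ) : ConvexOn ℝ univ (Fpart q s) := by
  unfold Fpart
  apply ConvexOn.add
  · exact (convexOn_norm convex_univ).smul (by norm_num : (0 : ℝ) ≤ 8)
  · induction s using Finset.induction_on with
    | empty => simpa using convexOn_const (0 : ℝ) convex_univ
    | insert a s ha ih =>
      simp_rw [Finset.sum_insert ha]
      exact ((convex_term (q a)).smul (wt_pos a).le).add ih

/-- Midpoint type inequality isolating one focus. -/
lemma F_corner (hq : ∀ k, ‖q k‖ ≤ 4 / 3) (m : ℕ) (v : Plane) :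
    2 * Ffull q (q m) + 2 * wt m * ‖v‖ ≤ Ffull q (q m + v) + Ffull q (q m - v) := by
  have h8 : 2 * ‖q m‖ ≤ ‖q m + v‖ + ‖q m - v‖ := by
    have : (2 : ℝ) • q m = (q m + v) + (q m - v) := by rw [two_smul]; abel
    calc 2 * ‖q m‖ = ‖(2 : ℝ) • q m‖ := by rw [norm_smul]; norm_num
      _ ≤ _ := by rw [this]; exact norm_add_le _ _
  have hk : ∀ k, 2 * ‖q m - q k‖ ≤ ‖q m + v - q k‖ + ‖q m - v - q k‖ := by
    intro k
    have : (2 : ℝ) • (q m - q k) = (q m + v - q k) + (q m - v - q k) := by rw [two_smul]; abel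
    calc 2 * ‖q m - q k‖ = ‖(2 : ℝ) • (q m - q k)‖ := by rw [norm_smul]; norm_num
      _ ≤ _ := by rw [this]; exact norm_add_le _ _
  have hs : Summable fun k => wt k * (‖q m + v - q k‖ + ‖q m - v - q k‖ - 2 * ‖q m - q k‖) := by
    have := ((summable_F hq (q m + v)).add (summable_F hq (q m - v))).sub
      ((summable_F hq (q m)).mul_left 2)
    refine this.congr ?_
    intro k; ring
  have he : (∑' k, wt k * (‖q m + v - q k‖ + ‖q m - v - q k‖ - 2 * ‖q m - q k‖)) =
      (∑' k, wt k * ‖q m + v - q k‖) + (∑' k, wt k * ‖q m - v - q k‖)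
        - 2 * ∑' k, wt k * ‖q m - q k‖ := by
    rw [← tsum_mul_left, ← (summable_F hq (q m + v)).tsum_add (summable_F hq (q m - v)),
      ← ((summable_F hq (q m + v)).add (summable_F hq (q m - v))).tsum_sub
        ((summable_F hq (q m)).mul_left 2)]
    congr 1; funext k; ring
  have hle : wt m * (‖q m + v - q m‖ + ‖q m - v - q m‖ - 2 * ‖q m - q m‖) ≤
      ∑' k, wt k * (‖q m + v - q k‖ + ‖q m - v - q k‖ - 2 * ‖q m - q k‖) := by
    apply hs.le_tsum m
    intro k _
    apply mul_nonneg (wt_pos k).le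
    linarith [hk k]
  have hv : ‖q m + v - q m‖ + ‖q m - v - q m‖ - 2 * ‖q m - q m‖ = 2 * ‖v‖ := by
    have e1 : q m + v - q m = v := by abel
    have e2 : q m - v - q m = -v := by abel
    rw [e1, e2, norm_neg, sub_self, norm_zero]; ring
  rw [hv, he] at hle
  unfold Ffull
  linarith

lemma F_lipschitz (hq : ∀ k, ‖q k‖ ≤ 4 / 3) (x y : Plane) :
    Ffull q x - Ffull q y ≤ 9 * ‖x - y‖ := by
  have h1 : ‖x‖ - ‖y‖ ≤ ‖x - y‖ := norm_sub_norm_le _ _
  have e : (∑' k, wt k * ‖x - q k‖) - (∑' k, wt k * ‖y - q k‖)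
      = ∑' k, wt k * (‖x - q k‖ - ‖y - q k‖) := by
    rw [← (summable_F hq x).tsum_sub (summable_F hq y)]
    congr 1; funext k; ring
  have h2 : |∑' k, wt k * (‖x - q k‖ - ‖y - q k‖)| ≤ ‖x - y‖ := by
    apply tsum_wt_mul_le
    intro k
    have := abs_norm_sub_norm_le (x - q k) (y - q k)
    simpa using this
  unfold Ffull
  have := (abs_le.mp h2).2
  linarith


lemma comb_sub {x y c : Plane} {a b : ℝ} (hab : a + b = 1) :
    a • x + b • y - c = a • (x - c) + b • (y - c) := by
  rw [smul_sub, smul_sub]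
  have : a • c + b • c = c := by rw [← add_smul, hab, one_smul]
  calc a • x + b • y - c = a • x + b • y - (a • c + b • c) := by rw [this]
    _ = _ := by abel

lemma comb_norm_le {x y c : Plane} {a b : ℝ} (ha : 0 ≤ a) (hb : 0 ≤ b) (hab : a + b = 1) :
    ‖a • x + b • y - c‖ ≤ a * ‖x - c‖ + b * ‖y - c‖ := by
  rw [comb_sub hab]
  calc _ ≤ ‖a • (x - c)‖ + ‖b • (y - c)‖ := norm_add_le _ _
    _ = _ := by rw [norm_smul, norm_smul, Real.norm_of_nonneg ha, Real.norm_of_nonneg hb]

def cr (u v : Plane) : ℝ := u 0 * v 1 - u 1 * v 0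

lemma cr_of_sameRay {u v : Plane} (h : SameRay ℝ u v) : cr u v = 0 := by
  rcases h with h | h | ⟨r, s, hr, hs, h⟩
  · simp [cr, h]
  · simp [cr, h]
  · have h0 : r * u 0 = s * v 0 := by
      have := congrFun (congrArg (fun w : Plane => (w : Fin 2 → ℝ)) h) 0
      simpa using this
    have h1 : r * u 1 = s * v 1 := by
      have := congrFun (congrArg (fun w : Plane => (w : Fin 2 → ℝ)) h) 1
      simpa using this
    unfold cr
    have : r * (u 0 * v 1 - u 1 * v 0) = 0 := by
      have : r * (u 0 * v 1 - u 1 * v 0) = (r * u 0) * v 1 - (r * u 1) * v 0 := by ring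
      rw [this, h0, h1]; ring
    exact (mul_eq_zero.mp this).resolve_left hr.ne'

lemma comb_norm_lt {x y c : Plane} {a b : ℝ} (ha : 0 < a) (hb : 0 < b) (hab : a + b = 1)
    (h : cr (x - c) (y - c) ≠ 0) :
    ‖a • x + b • y - c‖ < a * ‖x - c‖ + b * ‖y - c‖ := by
  rw [comb_sub hab]
  have hn : ¬ SameRay ℝ (a • (x - c)) (b • (y - c)) := by
    intro hs
    apply h
    have h0 := cr_of_sameRay hs
    have h1 : cr (a • (x - c)) (b • (y - c)) = a * b * cr (x - c) (y - c) := by
      simp [cr]; ring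
    rw [h1] at h0
    exact (mul_eq_zero.mp h0).resolve_left (mul_pos ha hb).ne'
  calc _ < ‖a • (x - c)‖ + ‖b • (y - c)‖ := norm_add_lt_of_not_sameRay hn
    _ = _ := by rw [norm_smul, norm_smul, Real.norm_of_nonneg ha.le, Real.norm_of_nonneg hb.le]

lemma F_comb_diff (hq : ∀ k, ‖q k‖ ≤ 4 / 3) (x y : Plane) (a b : ℝ) :
    a * Ffull q x + b * Ffull q y - Ffull q (a • x + b • y) =
      8 * (a * ‖x - 0‖ + b * ‖y - 0‖ - ‖a • x + b • y - 0‖) +
      ∑' k, wt k * (a * ‖x - q k‖ + b * ‖y - q k‖ - ‖a • x + b • y - q k‖) := by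
  have e : (∑' k, wt k * (a * ‖x - q k‖ + b * ‖y - q k‖ - ‖a • x + b • y - q k‖)) =
      a * (∑' k, wt k * ‖x - q k‖) + b * (∑' k, wt k * ‖y - q k‖)
        - ∑' k, wt k * ‖a • x + b • y - q k‖ := by
    rw [← tsum_mul_left, ← tsum_mul_left,
      ← ((summable_F hq x).mul_left a).tsum_add ((summable_F hq y).mul_left b),
      ← (((summable_F hq x).mul_left a).add ((summable_F hq y).mul_left b)).tsum_sub
        (summable_F hq (a • x + b • y))]
    congr 1; funext k; ring
  rw [e]
  unfold Ffull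
  simp only [sub_zero]
  ring

lemma summable_comb (hq : ∀ k, ‖q k‖ ≤ 4 / 3) (x y : Plane) (a b : ℝ) :
    Summable fun k => wt k * (a * ‖x - q k‖ + b * ‖y - q k‖ - ‖a • x + b • y - q k‖) := by
  have := (((summable_F hq x).mul_left a).add ((summable_F hq y).mul_left b)).sub
        (summable_F hq (a • x + b • y))
  refine this.congr ?_
  intro k; ring

lemma F_convex (hq : ∀ k, ‖q k‖ ≤ 4 / 3) : ConvexOn ℝ univ (Ffull q) := by
  refine ⟨convex_univ, ?_⟩
  intro x _ y _ a b ha hb hab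
  have h := F_comb_diff hq x y a b
  have h1 : 0 ≤ a * ‖x - 0‖ + b * ‖y - 0‖ - ‖a • x + b • y - 0‖ := by
    linarith [comb_norm_le (x := x) (y := y) (c := 0) ha hb hab]
  have h2 : 0 ≤ ∑' k, wt k * (a * ‖x - q k‖ + b * ‖y - q k‖ - ‖a • x + b • y - q k‖) := by
    apply tsum_nonneg
    intro k
    apply mul_nonneg (wt_pos k).le
    linarith [comb_norm_le (x := x) (y := y) (c := q k) ha hb hab]
  change Ffull q (a • x + b • y) ≤ a * Ffull q x + b * Ffull q y
  linarith

lemma cr_foci (hq : ∀ k, ‖q k‖ ≤ 4 / 3) (hfix : ∀ k, q k = opFun q k) : cr (q 0) (q 1) ≠ 0 := by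
  obtain ⟨r, hr, h1⟩ := focus_pos hq hfix 0
  obtain ⟨s, hs, h2⟩ := focus_pos hq hfix 1
  have : cr (q 0) (q 1) = r * s * (Real.sin (1 / 2 - 1)) := by
    rw [h1, h2, Real.sin_sub]
    simp [cr, dir]
    norm_num
    ring
  rw [this]
  have hneg : Real.sin (1 / 2 - 1) < 0 := by
    apply Real.sin_neg_of_neg_of_neg_pi_lt
    · norm_num
    · linarith [Real.pi_gt_three]
  exact mul_ne_zero (mul_ne_zero hr.ne' hs.ne') hneg.ne

lemma F_strict (hq : ∀ k, ‖q k‖ ≤ 4 / 3) (hfix : ∀ k, q k = opFun q k) {x y : Plane}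
    (hxy : x ≠ y) {a b : ℝ} (ha : 0 < a) (hb : 0 < b) (hab : a + b = 1) :
    Ffull q (a • x + b • y) < a * Ffull q x + b * Ffull q y := by
  have h := F_comb_diff hq x y a b
  have h1 : 0 ≤ a * ‖x - 0‖ + b * ‖y - 0‖ - ‖a • x + b • y - 0‖ := by
    linarith [comb_norm_le (x := x) (y := y) (c := 0) ha.le hb.le hab]
  have hnn : ∀ k, 0 ≤ wt k * (a * ‖x - q k‖ + b * ‖y - q k‖ - ‖a • x + b • y - q k‖) := by
    intro k
    apply mul_nonneg (wt_pos k).le
    linarith [comb_norm_le (x := x) (y := y) (c := q k) ha.le hb.le hab]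
  have hs : ∀ k, wt k * (a * ‖x - q k‖ + b * ‖y - q k‖ - ‖a • x + b • y - q k‖) ≤
      ∑' k, wt k * (a * ‖x - q k‖ + b * ‖y - q k‖ - ‖a • x + b • y - q k‖) :=
    fun k => (summable_comb hq x y a b).le_tsum k (fun j _ => hnn j)
  have key : cr (x - 0) (y - 0) ≠ 0 ∨ cr (x - q 0) (y - q 0) ≠ 0 ∨ cr (x - q 1) (y - q 1) ≠ 0 := by
    by_contra hcon
    push Not at hcon
    obtain ⟨c0, c1, c2⟩ := hcon
    have hf := cr_foci hq hfix
    have e1 : cr (x - y) (q 0) = 0 := by
      have : cr (x - q 0) (y - q 0) = cr (x - 0) (y - 0) - cr (x - y) (q 0) := by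
        simp [cr]; ring
      rw [c1, c0] at this; linarith
    have e2 : cr (x - y) (q 1) = 0 := by
      have : cr (x - q 1) (y - q 1) = cr (x - 0) (y - 0) - cr (x - y) (q 1) := by
        simp [cr]; ring
      rw [c2, c0] at this; linarith
    apply hxy
    have z0 : (x - y) 0 = 0 := by
      have : (x - y) 0 * cr (q 0) (q 1) = 0 := by
        have : (x - y) 0 * cr (q 0) (q 1) =
          cr (x - y) (q 1) * (q 0) 0 - cr (x - y) (q 0) * (q 1) 0 := by
          simp only [cr]; ring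
        rw [this, e1, e2]; ring
      exact (mul_eq_zero.mp this).resolve_right hf
    have z1 : (x - y) 1 = 0 := by
      have : (x - y) 1 * cr (q 0) (q 1) = 0 := by
        have : (x - y) 1 * cr (q 0) (q 1) =
          cr (x - y) (q 1) * (q 0) 1 - cr (x - y) (q 0) * (q 1) 1 := by
          simp only [cr]; ring
        rw [this, e1, e2]; ring
      exact (mul_eq_zero.mp this).resolve_right hf
    rw [← sub_eq_zero]
    ext i
    fin_cases i
    · simpa using z0
    · simpa using z1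
  rcases key with hk | hk | hk
  · have := comb_norm_lt ha hb hab hk
    have := (hnn 0).trans (hs 0)
    linarith
  · have h3 := comb_norm_lt ha hb hab hk
    have := hs 0
    have : 0 < wt 0 * (a * ‖x - q 0‖ + b * ‖y - q 0‖ - ‖a • x + b • y - q 0‖) :=
      mul_pos (wt_pos 0) (by linarith)
    linarith
  · have h3 := comb_norm_lt ha hb hab hk
    have := hs 1
    have : 0 < wt 1 * (a * ‖x - q 1‖ + b * ‖y - q 1‖ - ‖a • x + b • y - q 1‖) :=
      mul_pos (wt_pos 1) (by linarith)
    linarith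

lemma F_zero_le (hq : ∀ k, ‖q k‖ ≤ 4 / 3) : Ffull q 0 ≤ 4 / 3 := by
  unfold Ffull
  rw [norm_zero, mul_zero, zero_add]
  have : |∑' k, wt k * ‖0 - q k‖| ≤ 4 / 3 := by
    apply tsum_wt_mul_le
    intro k
    rw [zero_sub, norm_neg, abs_of_nonneg (norm_nonneg _)]
    exact hq k
  exact (abs_le.mp this).2

lemma F_coercive (_hq : ∀ k, ‖q k‖ ≤ 4 / 3) (x : Plane) : 8 * ‖x‖ ≤ Ffull q x := by
  unfold Ffull
  have : 0 ≤ ∑' k, wt k * ‖x - q k‖ :=
    tsum_nonneg fun k => mul_nonneg (wt_pos k).le (norm_nonneg _)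
  linarith

lemma Fpart_coercive (s : Finset ℕ) (x : Plane) : 8 * ‖x‖ ≤ Fpart q s x := by
  unfold Fpart
  have : 0 ≤ ∑ k ∈ s, wt k * ‖x - q k‖ :=
    Finset.sum_nonneg fun k _ => mul_nonneg (wt_pos k).le (norm_nonneg _)
  linarith

lemma Fpart_le_F (hq : ∀ k, ‖q k‖ ≤ 4 / 3) (s : Finset ℕ) (x : Plane) :
    Fpart q s x ≤ Ffull q x := by
  unfold Fpart Ffull
  have := (summable_F hq x).sum_le_tsum s
    (fun k _ => mul_nonneg (wt_pos k).le (norm_nonneg _))
  linarith

lemma F_cont (hq : ∀ k, ‖q k‖ ≤ 4 / 3) : Continuous (Ffull q) := by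
  have : LipschitzWith 9 (Ffull q) := by
    apply LipschitzWith.of_dist_le_mul
    intro x y
    rw [Real.dist_eq, dist_eq_norm, abs_le]
    have h1 := F_lipschitz hq x y
    have h2 := F_lipschitz hq y x
    rw [norm_sub_rev] at h2
    constructor <;> push_cast <;> linarith
  exact this.continuous

lemma Fpart_cont (s : Finset ℕ) : Continuous (Fpart q s) := by
  unfold Fpart
  fun_prop


/-! ### Potentials of finite measures -/

lemma integrable_dist (μ : Measure Plane) [IsFiniteMeasure μ] (s : Set Plane)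
    (hs : Bornology.IsBounded s) (hμ : ∀ᵐ y ∂μ, y ∈ s) (x : Plane) :
    Integrable (fun y => ‖x - y‖) μ := by
  obtain ⟨R, hR⟩ := hs.exists_norm_le
  refine Integrable.of_bound (by fun_prop) (‖x‖ + R) ?_
  filter_upwards [hμ] with y hy
  rw [norm_norm]
  exact (norm_sub_le _ _).trans (by linarith [hR y hy])

lemma diff_pot (μ : Measure Plane) [IsFiniteMeasure μ]
    (hint : ∀ x, Integrable (fun y => ‖x - y‖) μ) (x₀ : Plane) (h0 : μ {x₀} = 0) :
    DifferentiableAt ℝ (fun x => ∫ y, ‖x - y‖ ∂μ) x₀ := by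
  have h := hasFDerivAt_integral_of_dominated_loc_of_lip (μ := μ) (𝕜 := ℝ)
    (F := fun x y : Plane => ‖x - y‖) (F' := fun y => fderiv ℝ (fun z : Plane => ‖z‖) (x₀ - y))
    (x₀ := x₀) (s := univ) (bound := fun _ => (1 : ℝ)) Filter.univ_mem
    (Eventually.of_forall fun x => by fun_prop) (hint x₀)
    (by
      have hm : Measurable fun v : Plane => fderiv ℝ (fun z : Plane => ‖z‖) v :=
        measurable_fderiv ℝ _
      exact (hm.comp (measurable_const.sub measurable_id)).aestronglyMeasurable)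
    (Eventually.of_forall fun y => by
      apply LipschitzWith.lipschitzOnWith
      apply LipschitzWith.of_dist_le_mul
      intro a b
      rw [Real.dist_eq, dist_eq_norm]
      have := abs_norm_sub_norm_le (a - y) (b - y)
      simpa using this)
    (integrable_const _)
    (by
      have hne : ∀ᵐ y ∂μ, y ≠ x₀ := by
        rw [ae_iff]
        simpa using h0
      filter_upwards [hne] with y hy
      have hd : DifferentiableAt ℝ (fun z : Plane => ‖z‖) (x₀ - y) :=
        (differentiableAt_id (𝕜 := ℝ) (x := x₀ - y)).norm ℝ (sub_ne_zero.mpr hy.symm)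
      have h1 := hd.hasFDerivAt
      have h2 : HasFDerivAt (fun x : Plane => x - y) (ContinuousLinearMap.id ℝ Plane) x₀ :=
        (hasFDerivAt_id x₀).sub_const y
      have h3 := h1.comp x₀ h2
      rw [ContinuousLinearMap.comp_id] at h3
      exact h3)
  exact h.2.differentiableAt

lemma convex_pot (μ : Measure Plane) [IsFiniteMeasure μ]
    (hint : ∀ x, Integrable (fun y => ‖x - y‖) μ) :
    ConvexOn ℝ univ (fun x => ∫ y, ‖x - y‖ ∂μ) := by
  refine ⟨convex_univ, ?_⟩
  intro x _ y _ a b ha hb hab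
  change (∫ z, ‖a • x + b • y - z‖ ∂μ) ≤ a * (∫ z, ‖x - z‖ ∂μ) + b * (∫ z, ‖y - z‖ ∂μ)
  rw [← integral_const_mul, ← integral_const_mul,
    ← integral_add ((hint x).const_mul a) ((hint y).const_mul b)]
  apply integral_mono (hint _) (((hint x).const_mul a).add ((hint y).const_mul b))
  intro z
  exact comb_norm_le ha hb hab

lemma rect_compact {Γ : Set Plane} (h : IsRectifiableCurve Γ) : IsCompact Γ := by
  obtain ⟨a, b, K, γ, hγ, rfl⟩ := h
  exact isCompact_Icc.image_of_continuousOn hγ.continuousOn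

lemma rect_finite {Γ : Set Plane} (h : IsRectifiableCurve Γ) :
    (Measure.hausdorffMeasure 1 : Measure Plane) Γ < ⊤ := by
  obtain ⟨a, b, K, γ, hγ, rfl⟩ := h
  have := hγ.hausdorffMeasure_image_le (d := 1) zero_le_one
  refine this.trans_lt ?_
  rw [hausdorffMeasure_real, Real.volume_Icc]
  exact ENNReal.mul_lt_top (by simp) (by simp)

lemma convex_potential {E Γ : Set Plane} {m : ℕ} {p : Fin m → Plane}
    (hEb : Bornology.IsBounded E) (hE : IsOpen E) (hΓ : IsRectifiableCurve Γ) :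
    ConvexOn ℝ univ (potential E Γ p) := by
  have : IsFiniteMeasure ((volume : Measure Plane).restrict E) :=
    ⟨by rw [Measure.restrict_apply_univ]; exact hEb.measure_lt_top⟩
  have : IsFiniteMeasure ((Measure.hausdorffMeasure 1 : Measure Plane).restrict Γ) :=
    ⟨by rw [Measure.restrict_apply_univ]; exact rect_finite hΓ⟩
  have h1 := convex_pot ((volume : Measure Plane).restrict E)
    (integrable_dist _ E hEb (ae_restrict_mem hE.measurableSet))
  have h2 := convex_pot ((Measure.hausdorffMeasure 1 : Measure Plane).restrict Γ)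
    (integrable_dist _ Γ (rect_compact hΓ).isBounded
      (ae_restrict_mem (rect_compact hΓ).isClosed.measurableSet))
  have h3 : ConvexOn ℝ univ (fun x => ∑ j, ‖x - p j‖) := by
    have : ∀ s : Finset (Fin m), ConvexOn ℝ univ (fun x => ∑ j ∈ s, ‖x - p j‖) := by
      intro s
      induction s using Finset.induction_on with
      | empty => simpa using convexOn_const (0 : ℝ) convex_univ
      | insert a s ha ih =>
        simp_rw [Finset.sum_insert ha]
        exact (convex_term (p a)).add ih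
    exact this Finset.univ
  exact (h1.add h2).add h3

lemma diff_potential {E Γ : Set Plane} {m : ℕ} {p : Fin m → Plane}
    (hEb : Bornology.IsBounded E) (hE : IsOpen E) (hΓ : IsRectifiableCurve Γ) (x₀ : Plane)
    (hx : ∀ j, p j ≠ x₀) : DifferentiableAt ℝ (potential E Γ p) x₀ := by
  have : IsFiniteMeasure ((volume : Measure Plane).restrict E) :=
    ⟨by rw [Measure.restrict_apply_univ]; exact hEb.measure_lt_top⟩
  have : IsFiniteMeasure ((Measure.hausdorffMeasure 1 : Measure Plane).restrict Γ) :=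
    ⟨by rw [Measure.restrict_apply_univ]; exact rect_finite hΓ⟩
  have h1 := diff_pot ((volume : Measure Plane).restrict E)
    (integrable_dist _ E hEb (ae_restrict_mem hE.measurableSet)) x₀
    (by
      rw [Measure.restrict_apply (measurableSet_singleton x₀)]
      exact measure_mono_null inter_subset_left (measure_singleton _))
  have : NullSingletonClass (Measure.hausdorffMeasure 1 : Measure Plane) :=
    Measure.nullSingletonClass_hausdorff Plane one_pos
  have h2 := diff_pot ((Measure.hausdorffMeasure 1 : Measure Plane).restrict Γ)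
    (integrable_dist _ Γ (rect_compact hΓ).isBounded
      (ae_restrict_mem (rect_compact hΓ).isClosed.measurableSet)) x₀
    (by
      rw [Measure.restrict_apply (measurableSet_singleton x₀)]
      exact measure_mono_null inter_subset_left (measure_singleton _))
  have h3 : DifferentiableAt ℝ (fun x => ∑ j, ‖x - p j‖) x₀ := by
    apply DifferentiableAt.fun_sum
    intro j _
    exact ((differentiableAt_id (𝕜 := ℝ) (x := x₀)).sub_const (p j)).norm ℝ
      (sub_ne_zero.mpr (hx j).symm)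
  exact (h1.add h2).add h3


/-! ### Approximation -/

lemma exists_level {F G : Plane → ℝ} (hF : ConvexOn ℝ univ F) (hG : Continuous G)
    {c η δ : ℝ} (hη : 0 < η) (hδ : 0 ≤ δ) (hδη : δ ≤ η) (h0 : F 0 ≤ c - η)
    (hcl : ∀ y, ‖y‖ ≤ 2 → |F y - G y| ≤ δ) {x : Plane} (hx : F x = c) (hx1 : ‖x‖ ≤ 1) :
    ∃ y, G y = c ∧ ‖x - y‖ ≤ δ / η := by
  set t := δ / η with ht
  have ht0 : 0 ≤ t := by positivity
  have ht1 : t ≤ 1 := by rw [ht, div_le_one hη]; exact hδη
  have htη : t * η = δ := by rw [ht]; field_simp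
  have hup : c + δ ≤ F ((1 + t) • x) := by
    have h1 : (0 : ℝ) < 1 + t := by linarith
    have := hF.2 (mem_univ ((1 + t) • x)) (mem_univ (0 : Plane))
      (show (0 : ℝ) ≤ 1 / (1 + t) by positivity) (show (0 : ℝ) ≤ t / (1 + t) by positivity)
      (by field_simp)
    have e : (1 / (1 + t)) • ((1 + t) • x) + (t / (1 + t)) • (0 : Plane) = x := by
      rw [smul_smul, smul_zero, add_zero, one_div_mul_cancel h1.ne', one_smul]
    rw [e, hx, smul_eq_mul, smul_eq_mul] at this
    have h2 : (1 + t) * c ≤ F ((1 + t) • x) + t * F 0 := by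
      have := mul_le_mul_of_nonneg_left this h1.le
      calc (1 + t) * c ≤ _ := this
        _ = _ := by field_simp
    nlinarith
  have hdn : F ((1 - t) • x) ≤ c - δ := by
    have := hF.2 (mem_univ x) (mem_univ (0 : Plane))
      (show (0 : ℝ) ≤ 1 - t by linarith) ht0 (by ring)
    rw [smul_zero, add_zero, hx, smul_eq_mul, smul_eq_mul] at this
    nlinarith
  have hn : ∀ s ∈ Icc (-t) t, ‖(1 + s) • x‖ ≤ 2 := by
    intro s hs
    rw [norm_smul, Real.norm_eq_abs, abs_of_nonneg (by linarith [hs.1])]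
    have : 1 + s ≤ 2 := by linarith [hs.2]
    have h1s : 0 ≤ 1 + s := by linarith [hs.1]
    nlinarith [norm_nonneg x]
  have hGup : c ≤ G ((1 + t) • x) := by
    have := hcl _ (hn t ⟨by linarith, le_refl _⟩)
    linarith [(abs_le.mp this).2]
  have hGdn : G ((1 + (-t)) • x) ≤ c := by
    have := hcl _ (hn (-t) ⟨le_refl _, by linarith⟩)
    have e : (1 + (-t)) = 1 - t := by ring
    rw [e] at this ⊢
    linarith [(abs_le.mp this).1]
  have hcont : ContinuousOn (fun s : ℝ => G ((1 + s) • x)) (Icc (-t) t) := by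
    apply Continuous.continuousOn
    exact hG.comp (by fun_prop)
  obtain ⟨s, hs, hs2⟩ := intermediate_value_Icc (by linarith : -t ≤ t) hcont ⟨hGdn, hGup⟩
  refine ⟨(1 + s) • x, hs2, ?_⟩
  have : x - (1 + s) • x = (-s) • x := by
    rw [add_smul, one_smul, neg_smul]; abel
  rw [this, norm_smul, Real.norm_eq_abs, abs_neg]
  have h1 : |s| ≤ t := abs_le.mpr hs
  calc |s| * ‖x‖ ≤ t * 1 := mul_le_mul h1 hx1 (norm_nonneg _) ht0
    _ = _ := mul_one _

/-- The dyadic partial sums are, up to scaling, sums of distances to finitely many foci. -/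
lemma exists_foci_list (q : ℕ → Plane) (hq : ∀ k, ‖q k‖ ≤ 4 / 3) (N : ℕ) :
    ∃ (n : ℕ) (p : Fin n → Plane), 0 < n ∧ (∀ i, p i ∈ closedBall (0 : Plane) 2) ∧
      ∀ x, focalSum p x = 2 ^ N * Fpart q (Finset.range N) x := by
  let ι := Fin (8 * 2 ^ N) ⊕ (Σ k : Fin N, Fin (2 ^ (N - (k + 1))))
  let P : ι → Plane := Sum.elim (fun _ => 0) (fun s => q s.1)
  let e : Fin (Fintype.card ι) ≃ ι := (Fintype.equivFin ι).symm
  refine ⟨Fintype.card ι, P ∘ e, ?_, ?_, ?_⟩
  · apply Fintype.card_pos_iff.mpr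
    exact ⟨Sum.inl ⟨0, by positivity⟩⟩
  · intro i
    rw [mem_closedBall_zero_iff]
    change ‖P (e i)‖ ≤ 2
    rcases e i with j | j
    · simp [P]
    · simp only [P, Sum.elim_inr]
      linarith [hq j.1]
  · intro x
    have h1 : focalSum (P ∘ e) x = ∑ i : ι, ‖x - P i‖ := by
      unfold focalSum
      exact Equiv.sum_comp e (fun i => ‖x - P i‖)
    rw [h1, Fintype.sum_sum_type, Fintype.sum_sigma]
    simp only [P, Sum.elim_inl, Sum.elim_inr, sub_zero, Finset.sum_const, Finset.card_univ,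
      Fintype.card_fin, nsmul_eq_mul]
    unfold Fpart
    rw [mul_add, Finset.mul_sum, ← Fin.sum_univ_eq_sum_range
      (fun k => 2 ^ N * (wt k * ‖x - q k‖)) N]
    congr 1
    · push_cast; ring
    · apply Finset.sum_congr rfl
      intro k _
      have hk : (k : ℕ) + 1 ≤ N := k.2
      have : (2 : ℝ) ^ N = 2 ^ (N - ((k : ℕ) + 1)) * 2 ^ ((k : ℕ) + 1) := by
        rw [← pow_add]; congr 1; omega
      rw [this]
      unfold wt
      have h2 : (2 : ℝ) ^ ((k : ℕ) + 1) * (1 / 2) ^ ((k : ℕ) + 1) = 1 := by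
        rw [← mul_pow]; norm_num
      push_cast
      calc (2 : ℝ) ^ (N - ((k : ℕ) + 1)) * ‖x - q k‖
          = 2 ^ (N - ((k : ℕ) + 1)) * (2 ^ ((k : ℕ) + 1) * (1 / 2) ^ ((k : ℕ) + 1)) * ‖x - q k‖ := by
            rw [h2]; ring
        _ = _ := by ring

lemma approx (hq : ∀ k, ‖q k‖ ≤ 4 / 3) :
    ApproximableWithFociIn (closedBall 0 2) {x | Ffull q x = 8} := by
  intro ε hε
  obtain ⟨N, hN⟩ := exists_pow_lt_of_lt_one (show (0 : ℝ) < min 1 (ε / 4) by positivity)
    (show (1 / 2 : ℝ) < 1 by norm_num)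
  obtain ⟨n, p, hn, hp, hsum⟩ := exists_foci_list q hq N
  refine ⟨n, p, 2 ^ N * 8, hn, hp, ⟨0, ?_⟩, ?_⟩
  · rw [hsum 0]
    have := (Fpart_le_F hq (Finset.range N) 0).trans (F_zero_le hq)
    apply mul_lt_mul_of_pos_left _ (by positivity)
    linarith
  · have hset : {x | focalSum p x = 2 ^ N * 8} = {x | Fpart q (Finset.range N) x = 8} := by
      ext x
      simp only [mem_ofPred_eq, hsum x]
      constructor
      · intro h
        exact mul_left_cancel₀ (by positivity) h
      · intro h; rw [h]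
    rw [hset]
    set δ : ℝ := 4 * (1 / 2) ^ N with hδ
    have hδ0 : 0 ≤ δ := by positivity
    have hδ4 : δ ≤ 6 := by
      have := hN.le.trans (min_le_left _ _)
      rw [hδ]; linarith
    have hδε : δ < ε := by
      have := hN.trans_le (min_le_right _ _)
      rw [hδ]; linarith
    have hd : δ / 6 ≤ δ := by linarith
    have hle : hausdorffEDist {x | Fpart q (Finset.range N) x = 8} {x | Ffull q x = 8} ≤
        ENNReal.ofReal δ := by
      apply hausdorffEDist_le_of_mem_edist
      · intro x hx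
        have hx' : Fpart q (Finset.range N) x = 8 := hx
        have hx1 : ‖x‖ ≤ 1 := by linarith [Fpart_coercive (q := q) (Finset.range N) x]
        obtain ⟨y, hy, hxy⟩ := exists_level (convex_Fpart (q := q) (Finset.range N)) (F_cont hq)
          (c := 8) (η := 6) (δ := δ) (by norm_num) hδ0 hδ4
          (by linarith [(Fpart_le_F hq (Finset.range N) 0).trans (F_zero_le hq)])
          (fun y hy => by rw [abs_sub_comm]; exact Fpart_close hq N y hy) hx' hx1
        refine ⟨y, hy, ?_⟩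
        rw [edist_dist, dist_eq_norm]
        exact ENNReal.ofReal_le_ofReal (hxy.trans hd)
      · intro x hx
        have hx' : Ffull q x = 8 := hx
        have hx1 : ‖x‖ ≤ 1 := by linarith [F_coercive hq x]
        obtain ⟨y, hy, hxy⟩ := exists_level (F_convex hq) (Fpart_cont (q := q) (Finset.range N))
          (c := 8) (η := 6) (δ := δ) (by norm_num) hδ0 hδ4
          (by linarith [F_zero_le hq])
          (fun y hy => Fpart_close hq N y hy) hx' hx1
        refine ⟨y, hy, ?_⟩
        rw [edist_dist, dist_eq_norm]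
        exact ENNReal.ofReal_le_ofReal (hxy.trans hd)
    refine hle.trans_lt ?_
    exact (ENNReal.ofReal_lt_ofReal_iff hε).mpr hδε


/-! ### The curve -/

lemma mem_int (hq : ∀ k, ‖q k‖ ≤ 4 / 3) {x : Plane} (hx : Ffull q x < 8) :
    x ∈ interior {x | Ffull q x ≤ 8} := by
  have hop : IsOpen {x | Ffull q x < 8} := isOpen_lt (F_cont hq) continuous_const
  have hsub : {x | Ffull q x < 8} ⊆ {x | Ffull q x ≤ 8} :=
    fun y (hy : Ffull q y < 8) => (show Ffull q y ≤ 8 from hy.le)
  exact interior_maximal hsub hop hx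

lemma frontier_level (hq : ∀ k, ‖q k‖ ≤ 4 / 3) :
    frontier {x | Ffull q x ≤ 8} = {x | Ffull q x = 8} := by
  have hcl : IsClosed {x | Ffull q x ≤ 8} := isClosed_le (F_cont hq) continuous_const
  rw [hcl.frontier_eq]
  ext x
  constructor
  · rintro ⟨h1, h2⟩
    have h1' : Ffull q x ≤ 8 := h1
    rcases h1'.lt_or_eq with h | h
    · exact absurd (mem_int hq h) h2
    · exact h
  · intro hx
    have hx' : Ffull q x = 8 := hx
    refine ⟨hx'.le, ?_⟩
    intro hint
    rw [mem_interior_iff_mem_nhds] at hint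
    have hc : Tendsto (fun t : ℝ => (1 + t) • x) (𝓝 0) (𝓝 x) := by
      have : Continuous fun t : ℝ => (1 + t) • x := by fun_prop
      have h := this.tendsto 0
      simpa using h
    have hev : ∀ᶠ t in 𝓝 (0 : ℝ), Ffull q ((1 + t) • x) ≤ 8 := hc.eventually hint
    obtain ⟨δ, hδ, h⟩ := Metric.eventually_nhds_iff.mp hev
    have ht := h (y := δ / 2) (by rw [Real.dist_eq, sub_zero, abs_of_pos] <;> linarith)
    set t := δ / 2 with htd
    have htp : 0 < t := by rw [htd]; linarith
    have h1 : (0 : ℝ) < 1 + t := by linarith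
    have := (F_convex hq).2 (mem_univ ((1 + t) • x)) (mem_univ (0 : Plane))
      (show (0 : ℝ) ≤ 1 / (1 + t) by positivity) (show (0 : ℝ) ≤ t / (1 + t) by positivity)
      (by field_simp)
    have e : (1 / (1 + t)) • ((1 + t) • x) + (t / (1 + t)) • (0 : Plane) = x := by
      rw [smul_smul, smul_zero, add_zero, one_div_mul_cancel h1.ne', one_smul]
    rw [e, hx', smul_eq_mul, smul_eq_mul] at this
    have h2 : (1 + t) * 8 ≤ Ffull q ((1 + t) • x) + t * Ffull q 0 := by
      have := mul_le_mul_of_nonneg_left this h1.le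
      calc (1 + t) * 8 ≤ _ := this
        _ = _ := by field_simp
    nlinarith [F_zero_le hq]

/-- Sublevel sets of two convex functions with the same level curve. -/
lemma sublevel_compare (hq : ∀ k, ‖q k‖ ≤ 4 / 3) {G : Plane → ℝ} (hG : ConvexOn ℝ univ G)
    {c : ℝ} (hset : {x | Ffull q x = 8} = {x | G x = c}) {p : Plane} (hp : G p < c) :
    Ffull q p < 8 := by
  have hiff : ∀ x, Ffull q x = 8 ↔ G x = c := fun x => by
    have := Set.ext_iff.mp hset x
    exact this
  have h0 : Ffull q 0 < 8 := by linarith [F_zero_le hq]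
  by_contra hcon
  push Not at hcon
  have hpne : Ffull q p ≠ 8 := fun h => hp.ne ((hiff p).mp h)
  have hp8 : 8 < Ffull q p := lt_of_le_of_ne hcon hpne.symm
  have hG0 : G 0 ≠ c := fun h => h0.ne ((hiff 0).mpr h)
  rcases lt_or_gt_of_ne hG0 with hlt | hgt
  · have hcont : ContinuousOn (fun s : ℝ => Ffull q (s • p)) (Icc 0 1) := by
      apply Continuous.continuousOn
      exact (F_cont hq).comp (by fun_prop)
    have := intermediate_value_Icc (zero_le_one' ℝ) hcont
    obtain ⟨s, hs, hs2⟩ := this (show (8 : ℝ) ∈ _ from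
      ⟨by simpa using h0.le, by simpa using hp8.le⟩)
    have hs3 : G (s • p) = c := (hiff _).mp hs2
    have := hG.2 (mem_univ p) (mem_univ (0 : Plane)) hs.1
      (show (0 : ℝ) ≤ 1 - s by linarith [hs.2]) (by ring)
    rw [smul_zero, add_zero, hs3, smul_eq_mul, smul_eq_mul] at this
    have hs0 : 0 ≤ s := hs.1
    have hs1 : s ≤ 1 := hs.2
    rcases hs0.eq_or_lt with h | h
    · rw [← h] at this; linarith
    · nlinarith
  · have hpn : 0 < ‖p‖ := by
      rw [norm_pos_iff]
      rintro rfl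
      linarith
    have hcont : ContinuousOn (fun s : ℝ => Ffull q (-(s • p))) (Icc 0 (1 / ‖p‖)) := by
      apply Continuous.continuousOn
      exact (F_cont hq).comp (by fun_prop)
    have hle : (0 : ℝ) ≤ 1 / ‖p‖ := by positivity
    have hend : (8 : ℝ) ≤ Ffull q (-((1 / ‖p‖) • p)) := by
      have := F_coercive hq (-((1 / ‖p‖) • p))
      rw [norm_neg, norm_smul, Real.norm_of_nonneg hle, one_div_mul_cancel hpn.ne'] at this
      linarith
    obtain ⟨s, hs, hs2⟩ := intermediate_value_Icc hle hcont (show (8 : ℝ) ∈ _ from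
      ⟨by simpa using h0.le, hend⟩)
    have hs3 : G (-(s • p)) = c := (hiff _).mp hs2
    have hs0 : 0 ≤ s := hs.1
    have h1 : (0 : ℝ) < 1 + s := by linarith
    have := hG.2 (mem_univ p) (mem_univ (-(s • p)))
      (show (0 : ℝ) ≤ s / (1 + s) by positivity) (show (0 : ℝ) ≤ 1 / (1 + s) by positivity)
      (by rw [← add_div, add_comm s 1, div_self h1.ne'])
    have e : (s / (1 + s)) • p + (1 / (1 + s)) • (-(s • p)) = 0 := by
      rw [smul_neg, smul_smul]
      have : 1 / (1 + s) * s = s / (1 + s) := by ring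
      rw [this]; simp
    rw [e, hs3, smul_eq_mul, smul_eq_mul] at this
    have h2 : (1 + s) * G 0 ≤ s * G p + c := by
      have := mul_le_mul_of_nonneg_left this h1.le
      calc (1 + s) * G 0 ≤ _ := this
        _ = _ := by field_simp
    nlinarith

lemma not_form (hq : ∀ k, ‖q k‖ ≤ 4 / 3) (hfix : ∀ k, q k = opFun q k) :
    ¬ IsGeneralizedEllipseForm {x | Ffull q x = 8} := by
  rintro ⟨E, Γ, m, p, c, hE, hEb, hΓ, ⟨z, hz⟩, hset⟩
  have hiff : ∀ x, Ffull q x = 8 ↔ potential E Γ p x = c := fun x => Set.ext_iff.mp hset x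
  set G := potential E Γ p with hGdef
  have hG : ConvexOn ℝ univ G := convex_potential hEb hE hΓ
  -- choose a focus which is not one of the points
  obtain ⟨k, hk⟩ : ∃ k, ∀ j, p j ≠ q k := by
    by_contra hcon
    push Not at hcon
    choose j hj using hcon
    have hinj : Function.Injective j := by
      intro a b hab
      apply focus_injective hq hfix
      rw [← hj a, ← hj b, hab]
    exact not_injective_infinite_finite j hinj
  set x₀ := q k with hx₀
  have hGx : G x₀ = c := (hiff x₀).mp (F_at_focus hq hfix k)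
  obtain ⟨L, hL⟩ : ∃ L, HasFDerivAt G L x₀ := ⟨_, (diff_potential hEb hE hΓ x₀ hk).hasFDerivAt⟩
  -- a direction of descent
  set n := z - x₀ with hn
  have hline : ∀ w : Plane, HasDerivAt (fun t : ℝ => G (x₀ + t • w)) (L w) 0 := by
    intro w
    have h1 : HasDerivAt (fun t : ℝ => x₀ + t • w) w 0 := by
      have := ((hasDerivAt_id (0 : ℝ)).smul_const w).const_add x₀
      simpa using this
    have h2 : HasFDerivAt G L (x₀ + (0 : ℝ) • w) := by simpa using hL
    exact h2.comp_hasDerivAt (0 : ℝ) h1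
  have hLn : L n < 0 := by
    have h1 := (hline n).tendsto_slope_zero_right
    have h2 : ∀ᶠ t in 𝓝[>] (0 : ℝ),
        t⁻¹ • (G (x₀ + (0 + t) • n) - G (x₀ + (0 : ℝ) • n)) ≤ G z - c := by
      have hmem : Ioo (0 : ℝ) 1 ∈ 𝓝[>] (0 : ℝ) := Ioo_mem_nhdsGT one_pos
      filter_upwards [hmem] with t ht
      have := hG.2 (mem_univ z) (mem_univ x₀) ht.1.le
        (show (0 : ℝ) ≤ 1 - t by linarith [ht.2]) (by ring)
      have e : t • z + (1 - t) • x₀ = x₀ + (0 + t) • n := by
        rw [hn, zero_add, smul_sub, sub_smul, one_smul]; abel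
      rw [e, hGx, smul_eq_mul, smul_eq_mul] at this
      rw [zero_smul, add_zero, hGx, smul_eq_mul, inv_mul_le_iff₀ ht.1]
      linarith
    have h3 := le_of_tendsto h1 h2
    linarith
  have hn0 : 0 < ‖n‖ := by
    rw [norm_pos_iff]
    intro h
    rw [h, map_zero] at hLn
    exact lt_irrefl _ hLn
  -- a tangent direction
  obtain ⟨v, hv0, hLv⟩ : ∃ v : Plane, v ≠ 0 ∧ L v = 0 := by
    by_contra hcon
    push Not at hcon
    have hker : LinearMap.ker (L : Plane →ₗ[ℝ] ℝ) = ⊥ := by
      rw [LinearMap.ker_eq_bot']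
      intro v hv
      by_contra hne
      exact hcon v hne hv
    have := LinearMap.finrank_le_finrank_of_injective (LinearMap.ker_eq_bot.mp hker)
    simp at this
  have hvn : 0 < ‖v‖ := norm_pos_iff.mpr hv0
  set ε : ℝ := wt k * ‖v‖ / (18 * ‖n‖) with hε
  have hεp : 0 < ε := by
    have := wt_pos k
    positivity
  have hdesc : ∀ w : Plane, L w = 0 → ∀ᶠ t in 𝓝[>] (0 : ℝ), G (x₀ + t • (w + ε • n)) < c := by
    intro w hw
    have h1 := (hline (w + ε • n)).tendsto_slope_zero_right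
    have hneg : L (w + ε • n) < 0 := by
      rw [map_add, map_smul, hw, zero_add, smul_eq_mul]
      exact mul_neg_of_pos_of_neg hεp hLn
    have h2 := h1.eventually_lt_const hneg
    filter_upwards [h2, self_mem_nhdsWithin] with t ht htpos
    have htp : (0 : ℝ) < t := htpos
    rw [zero_smul, add_zero, hGx, smul_eq_mul, zero_add, inv_mul_lt_iff₀ htp, mul_zero] at ht
    linarith
  have hboth := (hdesc v hLv).and ((hdesc (-v) (by rw [map_neg, hLv, neg_zero])).and
    (self_mem_nhdsWithin : ∀ᶠ t in 𝓝[>] (0 : ℝ), t ∈ Ioi (0 : ℝ)))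
  obtain ⟨t, ht1, ht2, ht3⟩ := hboth.exists
  have htp : (0 : ℝ) < t := ht3
  have f1 := sublevel_compare hq hG hset ht1
  have f2 := sublevel_compare hq hG hset ht2
  have l1 := F_lipschitz hq (x₀ + t • v) (x₀ + t • (v + ε • n))
  have l2 := F_lipschitz hq (x₀ - t • v) (x₀ + t • (-v + ε • n))
  have e1 : ‖(x₀ + t • v) - (x₀ + t • (v + ε • n))‖ = t * ε * ‖n‖ := by
    have : (x₀ + t • v) - (x₀ + t • (v + ε • n)) = -((t * ε) • n) := by
      rw [smul_add, smul_smul]; abel
    rw [this, norm_neg, norm_smul, Real.norm_of_nonneg (by positivity)]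
  have e2 : ‖(x₀ - t • v) - (x₀ + t • (-v + ε • n))‖ = t * ε * ‖n‖ := by
    have : (x₀ - t • v) - (x₀ + t • (-v + ε • n)) = -((t * ε) • n) := by
      rw [smul_add, smul_smul, smul_neg]; abel
    rw [this, norm_neg, norm_smul, Real.norm_of_nonneg (by positivity)]
  rw [e1] at l1
  rw [e2] at l2
  have hc := F_corner hq k (t • v)
  rw [F_at_focus hq hfix k, norm_smul, Real.norm_of_nonneg htp.le] at hc
  have hfin : 2 * wt k * (t * ‖v‖) ≤ 18 * (t * ε * ‖n‖) := by linarith
  have : 18 * (t * ε * ‖n‖) = wt k * (t * ‖v‖) := by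
    rw [hε]; field_simp
  rw [this] at hfin
  have hpos : 0 < wt k * (t * ‖v‖) := mul_pos (wt_pos k) (mul_pos htp hvn)
  linarith

/-- There is a strictly convex compact set whose boundary curve is a limit of multifocal
ellipses with foci in one fixed disc and which is not of generalized-ellipse form. -/
theorem result : ∃ K : Set Plane, IsCompact K ∧ StrictConvex ℝ K ∧ (interior K).Nonempty ∧
    ApproximableWithFociIn (closedBall 0 2) (frontier K) ∧
    ¬ IsGeneralizedEllipseForm (frontier K) := by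
  obtain ⟨q, hq, hfix⟩ := exists_foci
  have hcl : IsClosed {x | Ffull q x ≤ 8} := isClosed_le (F_cont hq) continuous_const
  refine ⟨{x | Ffull q x ≤ 8}, ?_, ?_, ?_, ?_, ?_⟩
  · apply Metric.isCompact_of_isClosed_isBounded hcl
    rw [isBounded_iff_forall_norm_le]
    refine ⟨1, fun x hx => ?_⟩
    have hx' : Ffull q x ≤ 8 := hx
    linarith [F_coercive hq x]
  · intro x hx y hy hxy a b ha hb hab
    have hx' : Ffull q x ≤ 8 := hx
    have hy' : Ffull q y ≤ 8 := hy
    have h := F_strict hq hfix hxy ha hb hab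
    have : Ffull q (a • x + b • y) < 8 := by nlinarith
    exact mem_int hq this
  · exact ⟨0, mem_int hq (by linarith [F_zero_le hq])⟩
  · rw [frontier_level hq]
    exact approx hq
  · rw [frontier_level hq]
    exact not_form hq hfix

end Pool.Agent.Results.MP_8b9c06_gt.InfiniteCorners
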